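import Mathlib

set_option autoImplicit false

open TensorProduct Module

namespace Pool.Agent.Helper88.Eggert

section

variable {p : ℕ} [Fact p.Prime] {A : Type} [CommRing A] [Algebra (ZMod p) A]
variable {M : Type} [Field M] [Algebra (ZMod p) M]

/-- Frobenius as a `ZMod p`-linear map. -/
noncomputable def frobLin (p : ℕ) [Fact p.Prime] (A : Type) [CommRing A] [Algebra (ZMod p) A]
    [CharP A p] : A →ₗ[ZMod p] A :=
  AddMonoidHom.toZModLinearMap p ((frobenius A p : A →+* A) : A →+ A)

lemma frobLin_apply (p : ℕ) [Fact p.Prime] (A : Type) [CommRing A] [Algebra (ZMod p) A]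
    [CharP A p] (a : A) : frobLin p A a = a ^ p := rfl

lemma tensor_pow_eq [CharP A p] [CharP M p] [CharP (M ⊗[ZMod p] A) p]
    (x : M ⊗[ZMod p] A) :
    x ^ p = TensorProduct.map (frobLin p M) (frobLin p A) x := by
  induction x using TensorProduct.induction_on with
  | zero => rw [map_zero, zero_pow (Fact.out : p.Prime).ne_zero]
  | tmul m a => rw [Algebra.TensorProduct.tmul_pow, TensorProduct.map_tmul, frobLin_apply,
      frobLin_apply]
  | add x y hx hy => rw [add_pow_char, map_add, hx, hy]

lemma frobLin_injective [CharP M p] : Function.Injective (frobLin p M) := by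
  intro a b h
  exact frobenius_inj M p h

lemma rTensor_frob_injective [CharP M p] :
    Function.Injective ((frobLin p M).rTensor A) :=
  Module.Flat.rTensor_preserves_injective_linearMap _ frobLin_injective

/-- Coordinates of an element of `M ⊗ A` with respect to a basis of `M`. -/
noncomputable abbrev bas (p : ℕ) [Fact p.Prime] (M : Type) [Field M] [Algebra (ZMod p) M] :
    Basis (Basis.ofVectorSpaceIndex (ZMod p) M) (ZMod p) M := Basis.ofVectorSpace (ZMod p) M

noncomputable def co (x : M ⊗[ZMod p] A) (i : Basis.ofVectorSpaceIndex (ZMod p) M) : A :=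
  by classical exact TensorProduct.equivFinsuppOfBasisLeft (bas p M) x i

lemma co_tmul (m : M) (a : A) (i : Basis.ofVectorSpaceIndex (ZMod p) M) :
    co (m ⊗ₜ[ZMod p] a) i = (bas p M).repr m i • a := by
  classical
  rw [co, TensorProduct.equivFinsuppOfBasisLeft_apply_tmul_apply]

lemma co_add (x y : M ⊗[ZMod p] A) (i : Basis.ofVectorSpaceIndex (ZMod p) M) :
    co (x + y) i = co x i + co y i := by
  classical
  simp [co]

lemma co_zero (i : Basis.ofVectorSpaceIndex (ZMod p) M) :
    co (0 : M ⊗[ZMod p] A) i = 0 := by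
  classical
  simp [co]

lemma co_mul (x : M ⊗[ZMod p] A) (b : A) (i : Basis.ofVectorSpaceIndex (ZMod p) M) :
    co (((1 : M) ⊗ₜ[ZMod p] b) * x) i = b * co x i := by
  induction x using TensorProduct.induction_on with
  | zero => simp [co_zero]
  | tmul m a =>
    rw [Algebra.TensorProduct.tmul_mul_tmul, co_tmul, co_tmul, one_mul, mul_smul_comm]
  | add x y hx hy => rw [mul_add, co_add, hx, hy, co_add, mul_add]

lemma co_lTensor (f : A →ₗ[ZMod p] A) (x : M ⊗[ZMod p] A)
    (i : Basis.ofVectorSpaceIndex (ZMod p) M) :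
    co (f.lTensor M x) i = f (co x i) := by
  induction x using TensorProduct.induction_on with
  | zero => simp [co_zero]
  | tmul m a => rw [LinearMap.lTensor_tmul, co_tmul, co_tmul, map_smul]
  | add x y hx hy => rw [map_add, co_add, hx, hy, co_add, map_add]

lemma co_ext {x : M ⊗[ZMod p] A} (h : ∀ i, co x i = 0) : x = 0 := by
  classical
  apply (TensorProduct.equivFinsuppOfBasisLeft (bas p M)).injective
  rw [map_zero]
  ext i
  exact h i

lemma sum_co (x : M ⊗[ZMod p] A) : ∃ F : Finset (Basis.ofVectorSpaceIndex (ZMod p) M),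
    x = ∑ i ∈ F, (bas p M i) ⊗ₜ[ZMod p] (co x i) := by
  classical
  refine ⟨(TensorProduct.equivFinsuppOfBasisLeft (bas p M) x).support, ?_⟩
  conv_lhs => rw [← (TensorProduct.equivFinsuppOfBasisLeft (bas p M)).symm_apply_apply x]
  rw [TensorProduct.equivFinsuppOfBasisLeft_symm_apply]
  rfl

lemma pow_eq_zero_iff_co [CharP A p] [CharP M p] [CharP (M ⊗[ZMod p] A) p]
    (x : M ⊗[ZMod p] A) : x ^ p = 0 ↔ ∀ i, (co x i) ^ p = 0 := by
  have h1 : x ^ p = (frobLin p M).rTensor A ((frobLin p A).lTensor M x) := by
    rw [tensor_pow_eq, ← LinearMap.comp_apply, LinearMap.rTensor_comp_lTensor]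
  constructor
  · intro h i
    have h2 : (frobLin p A).lTensor M x = 0 := by
      apply rTensor_frob_injective (p := p) (A := A) (M := M)
      rw [map_zero, ← h1, h]
    rw [← frobLin_apply, ← co_lTensor, h2, co_zero]
  · intro h
    have h2 : (frobLin p A).lTensor M x = 0 := by
      apply co_ext
      intro i
      rw [co_lTensor, frobLin_apply, h i]
    rw [h1, h2, map_zero]

end

end Pool.Agent.Helper88.Eggert
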