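import Mathlib

set_option autoImplicit false

open Polynomial Finset

namespace Pool.Agent.Helper88.Eggert

section deriv

variable {R : Type*} [CommRing R] (d : R →+ R) (hd : ∀ a b, d (a * b) = d a * b + a * d b)

include hd

lemma d_one : d 1 = 0 := by
  have h := hd 1 1
  simp only [mul_one, one_mul] at h
  simpa using h

lemma d_pow_succ (u : R) (n : ℕ) : d (u ^ (n + 1)) = (n + 1 : ℕ) * u ^ n * d u := by
  induction n with
  | zero => simp
  | succ n ih =>
    rw [pow_succ, hd, ih]
    push_cast
    ring

lemma iterate_leibniz (n : ℕ) (a b : R) :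
    (d^[n]) (a * b) =
      ∑ k ∈ antidiagonal n, (n.choose k.1) • ((d^[k.1]) a * (d^[k.2]) b) := by
  induction n with
  | zero => simp
  | succ n ih =>
    rw [Function.iterate_succ_apply', ih, map_sum,
      sum_antidiagonal_choose_succ_nsmul (fun i j => (d^[i]) a * (d^[j]) b) n,
      ← sum_add_distrib]
    refine sum_congr rfl fun k hk => ?_
    have hsymm : n.choose k.2 = n.choose k.1 := by
      have : k.1 + k.2 = n := mem_antidiagonal.1 hk
      rw [← this]
      exact (Nat.choose_symm_add).symm
    rw [map_nsmul, hd, hsymm, Function.iterate_succ_apply', Function.iterate_succ_apply', smul_add,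
      add_comm]

end deriv

variable {M R : Type*} [Field M] [CommRing R] [Algebra M R]

/-- The truncated exponential of `d` at `u`. -/
noncomputable def texp (M : Type*) {R : Type*} [Field M] [CommRing R] [Algebra M R]
    (p : ℕ) (d : R →+ R) (u : R) : R[X] :=
  ∑ k ∈ range p, monomial k (((k.factorial : M)⁻¹) • (d^[k]) u)

lemma texp_coeff (p : ℕ) (d : R →+ R) (u : R) (k : ℕ) :
    (texp M p d u).coeff k = if k < p then ((k.factorial : M)⁻¹) • (d^[k]) u else 0 := by
  simp only [texp, finsetSum_coeff, coeff_monomial]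
  rw [Finset.sum_ite_eq' (range p) k]
  simp

lemma fac_ne_zero (p : ℕ) [Fact p.Prime] [CharP M p] {i : ℕ} (hi : i < p) :
    (i.factorial : M) ≠ 0 := by
  intro h
  rw [CharP.cast_eq_zero_iff M p] at h
  exact absurd ((Nat.Prime.dvd_factorial Fact.out).1 h) (by omega)

lemma texp_pow_coeff (p : ℕ) [Fact p.Prime] [CharP M p] (d : R →+ R)
    (hd : ∀ a b, d (a * b) = d a * b + a * d b) (u : R) (j i : ℕ) (hi : i < p) :
    ((texp M p d u) ^ j).coeff i = ((i.factorial : M)⁻¹) • (d^[i]) (u ^ j) := by
  induction j generalizing i with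
  | zero =>
    rw [pow_zero, pow_zero, coeff_one]
    rcases Nat.eq_zero_or_pos i with rfl | h
    · simp
    · obtain ⟨k, rfl⟩ : ∃ k, i = k + 1 := ⟨i - 1, by omega⟩
      rw [Function.iterate_succ_apply, d_one d hd]
      simp
  | succ j ih =>
    rw [pow_succ, coeff_mul, pow_succ, iterate_leibniz d hd, smul_sum]
    refine sum_congr rfl fun k hk => ?_
    have hk' : k.1 + k.2 = i := mem_antidiagonal.1 hk
    have h1 : k.1 < p := by omega
    have h2 : k.2 < p := by omega
    rw [ih _ h1, texp_coeff, if_pos h2, smul_mul_smul_comm, ← Nat.cast_smul_eq_nsmul M, smul_smul]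
    congr 1
    have e := Nat.choose_mul_factorial_mul_factorial (show k.1 ≤ i by omega)
    rw [show i - k.1 = k.2 by omega] at e
    have e' : ((i.choose k.1 : ℕ) : M) * (k.1.factorial : M) * (k.2.factorial : M)
        = (i.factorial : M) := by exact_mod_cast congrArg (Nat.cast : ℕ → M) e
    have n1 := fac_ne_zero (M := M) p h1
    have n2 := fac_ne_zero (M := M) p h2
    have n3 := fac_ne_zero (M := M) p hi
    field_simp
    rw [← e']
    ring

theorem coeff_pow_mul_derivative {R : Type*} [CommRing R] (p : ℕ) [Fact p.Prime] [CharP R p]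
    (P : R[X]) : (P ^ (p - 1) * derivative P).coeff (p - 1) = (P.coeff 1) ^ p := by
  have hp : p.Prime := Fact.out
  have key : (P ^ (p - 1) * derivative P).coeff (p - 1) = (P ^ p).coeff p := by
    -- lift to a torsion-free ring
    let S := MvPolynomial R ℤ
    let f : S →+* R := (MvPolynomial.aeval (fun r : R => r)).toRingHom
    have hf : Function.Surjective f := fun r =>
      ⟨MvPolynomial.X r, MvPolynomial.aeval_X (fun r : R => r) r⟩
    obtain ⟨Q, hQ⟩ := Polynomial.map_surjective f hf P
    have hS : (Q ^ (p - 1) * derivative Q).coeff (p - 1) = (Q ^ p).coeff p := by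
      have h1 : (derivative (Q ^ p)).coeff (p - 1) = (Q ^ p).coeff p * p := by
        rw [coeff_derivative, Nat.sub_add_cancel hp.one_le]
        congr 1
        have : ((p - 1 : ℕ) : S) + 1 = ((p - 1 + 1 : ℕ) : S) := by push_cast; ring
        rw [this, Nat.sub_add_cancel hp.one_le]
      rw [derivative_pow, mul_assoc, coeff_C_mul] at h1
      have hp0 : (p : S) ≠ 0 := by exact_mod_cast hp.ne_zero
      apply mul_left_cancel₀ hp0
      rw [h1, mul_comm]
    have := congrArg f hS
    rw [← coeff_map, ← coeff_map, Polynomial.map_mul, Polynomial.map_pow, Polynomial.map_pow,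
      ← derivative_map, hQ] at this
    exact this
  rw [key]
  rw [← Polynomial.map_frobenius_expand p P, coeff_map, coeff_expand hp.pos]
  simp [Nat.div_self hp.pos, frobenius_def]

theorem key_lemma {M R : Type*} [Field M] [CommRing R] [Algebra M R] (p : ℕ) [Fact p.Prime]
    [CharP M p] (I : Ideal R) (Y : Submodule M R) (d : R →+ R)
    (hd : ∀ a b, d (a * b) = d a * b + a * d b)
    (hdI : ∀ a ∈ I, d a ∈ I) (hdY : ∀ y ∈ Y, d y ∈ Y)
    (c u : R) (hc : d c = 0) (hu : u ∈ Y)
    (h : ∀ y ∈ Y, c * u ^ (p - 2) * d u * y ∈ I) : c * (d u) ^ p ∈ I := by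
  have hp : p.Prime := Fact.out
  rcases subsingleton_or_nontrivial R with hR | hR
  · have : c * (d u) ^ p = 0 := Subsingleton.elim _ _
    rw [this]; exact I.zero_mem
  have : CharP R p := charP_of_injective_algebraMap (algebraMap M R).injective p
  have hsm : ∀ (r : M) (a : R), a ∈ I → r • a ∈ I := fun r a ha => by
    rw [Algebra.smul_def]; exact I.mul_mem_left _ ha
  -- iterates of u stay in Y
  have hY : ∀ k, (d^[k]) u ∈ Y := by
    intro k
    induction k with
    | zero => exact hu
    | succ k ih => rw [Function.iterate_succ_apply']; exact hdY _ ih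
  -- main vanishing
  have hW : ∀ i, ∀ y ∈ Y, c * (d^[i + 1]) (u ^ (p - 1)) * y ∈ I := by
    intro i
    induction i with
    | zero =>
      intro y hy
      have e : p - 1 = (p - 2) + 1 := by have := hp.two_le; omega
      rw [e, zero_add, Function.iterate_one, d_pow_succ d hd]
      have : c * (((p - 2 + 1 : ℕ) : R) * u ^ (p - 2) * d u) * y
          = ((p - 2 + 1 : ℕ) : R) * (c * u ^ (p - 2) * d u * y) := by ring
      rw [this]
      exact I.mul_mem_left _ (h y hy)
    | succ i ih =>
      intro y hy
      have e : c * (d^[i + 1 + 1]) (u ^ (p - 1)) * y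
          = d (c * (d^[i + 1]) (u ^ (p - 1)) * y) - c * (d^[i + 1]) (u ^ (p - 1)) * d y := by
        rw [hd, hd, hc, Function.iterate_succ_apply' d (i + 1)]
        ring
      rw [e]
      exact I.sub_mem (hdI _ (ih y hy)) (ih _ (hdY y hy))
  have id := coeff_pow_mul_derivative p (texp M p d u)
  rw [texp_coeff, if_pos hp.one_lt, Nat.factorial_one, Nat.cast_one, inv_one, one_smul,
    Function.iterate_one] at id
  rw [← id, coeff_mul, mul_sum]
  refine I.sum_mem fun k hk => ?_
  have hk' : k.1 + k.2 = p - 1 := mem_antidiagonal.1 hk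
  have hk1 : k.1 < p := by have := hp.pos; omega
  rw [texp_pow_coeff p d hd u _ _ hk1, coeff_derivative, texp_coeff]
  split_ifs with hlt
  · obtain ⟨i, hi⟩ : ∃ i, k.1 = i + 1 := ⟨k.1 - 1, by omega⟩
    have := hW i _ (hY (k.2 + 1))
    rw [← hi] at this
    have e : c * (((k.1.factorial : M)⁻¹ • (d^[k.1]) (u ^ (p - 1))) *
        ((((k.2 + 1).factorial : M)⁻¹ • (d^[k.2 + 1]) u) * ((k.2 : R) + 1)))
        = ((k.1.factorial : M)⁻¹ * ((k.2 + 1).factorial : M)⁻¹) •
          (((k.2 : R) + 1) * (c * (d^[k.1]) (u ^ (p - 1)) * (d^[k.2 + 1]) u)) := by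
      simp only [Algebra.smul_def, map_mul]
      ring
    rw [e]
    exact hsm _ _ (I.mul_mem_left _ this)
  · simp

end Pool.Agent.Helper88.Eggert
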