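import Mathlib
import Pool.Agent.Helper88.Eggert.Base
import Pool.Agent.Helper88.Eggert.Key

set_option autoImplicit false

open TensorProduct Module

namespace Pool.Agent.Helper88.Eggert

section

variable {p : ℕ} [Fact p.Prime] {A : Type} [CommRing A] [Algebra (ZMod p) A]
variable {M : Type} [Field M] [Algebra (ZMod p) M]
variable {s : ℕ} (Φ : A →ₗ[ZMod p] (Fin s → ZMod p)) (t : Fin s → M)

/-- The `i`-th coordinate of `Φ`, extended to `M ⊗ A`. -/
noncomputable def coordM (M : Type) [Field M] [Algebra (ZMod p) M] (i : Fin s) :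
    M ⊗[ZMod p] A →ₗ[M] M :=
  LinearMap.liftBaseChange M
    ((Algebra.linearMap (ZMod p) M) ∘ₗ (LinearMap.proj i) ∘ₗ Φ)

lemma coordM_tmul (i : Fin s) (m : M) (a : A) :
    coordM Φ M i (m ⊗ₜ a) = m * algebraMap (ZMod p) M (Φ a i) := by
  simp [coordM]

/-- The generic functional. -/
noncomputable def phi : M ⊗[ZMod p] A →ₗ[M] M :=
  ∑ i, t i • coordM Φ M i

lemma phi_apply (x : M ⊗[ZMod p] A) : phi Φ t x = ∑ i, t i * coordM Φ M i x := by
  simp [phi, LinearMap.sum_apply]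

/-- `θ_{i,b}`. -/
noncomputable def theta (M : Type) [Field M] [Algebra (ZMod p) M] [CharP A p] (i : Fin s) (b : A) :
    M ⊗[ZMod p] A →ₗ[M] M :=
  LinearMap.liftBaseChange M
    ((Algebra.linearMap (ZMod p) M) ∘ₗ (LinearMap.proj i) ∘ₗ Φ ∘ₗ
      (LinearMap.mulLeft (ZMod p) b) ∘ₗ frobLin p A)

lemma theta_tmul [CharP A p] (i : Fin s) (b : A) (m : M) (a : A) :
    theta Φ M i b (m ⊗ₜ a) = m * algebraMap (ZMod p) M (Φ (b * a ^ p) i) := by
  simp [theta, frobLin_apply]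

lemma coord_pow [CharP A p] [CharP M p] [CharP (M ⊗[ZMod p] A) p] (i : Fin s) (b : A)
    (x : M ⊗[ZMod p] A) :
    coordM Φ M i (((1 : M) ⊗ₜ[ZMod p] b) * x ^ p) = (theta Φ M i b x) ^ p := by
  induction x using TensorProduct.induction_on with
  | zero => simp [zero_pow (Fact.out : p.Prime).ne_zero]
  | tmul m a =>
    rw [Algebra.TensorProduct.tmul_pow, Algebra.TensorProduct.tmul_mul_tmul, coordM_tmul,
      theta_tmul, mul_pow, one_mul, ← map_pow, ZMod.pow_card]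
  | add x y hx hy => rw [add_pow_char, mul_add, map_add, hx, hy, map_add, add_pow_char]

lemma repr_theta [CharP A p] (i : Fin s) (b : A) (x : M ⊗[ZMod p] A)
    (k : Basis.ofVectorSpaceIndex (ZMod p) M) :
    (bas p M).repr (theta Φ M i b x) k = Φ (b * (co x k) ^ p) i := by
  induction x using TensorProduct.induction_on with
  | zero => simp [co_zero, zero_pow (Fact.out : p.Prime).ne_zero]
  | tmul m a =>
    rw [theta_tmul, co_tmul, smul_pow, ZMod.pow_card, mul_smul_comm, map_smul, mul_comm m,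
      ← Algebra.smul_def, map_smul, Finsupp.smul_apply, Pi.smul_apply, smul_eq_mul, smul_eq_mul,
      mul_comm]
  | add x y hx hy =>
    rw [map_add, map_add, Finsupp.add_apply, hx, hy, co_add, add_pow_char, mul_add, map_add,
      Pi.add_apply]

lemma phi_pow [CharP A p] [CharP M p] [CharP (M ⊗[ZMod p] A) p] (b : A)
    (x : M ⊗[ZMod p] A) :
    phi Φ t (((1 : M) ⊗ₜ[ZMod p] b) * x ^ p) = ∑ i, t i * (theta Φ M i b x) ^ p := by
  rw [phi_apply]
  exact Finset.sum_congr rfl fun i _ => by rw [coord_pow]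

lemma delta_pow_char [CharP M p] (δ : M →+ M) (hδ : ∀ a b, δ (a * b) = δ a * b + a * δ b)
    (x : M) : δ (x ^ p) = 0 := by
  obtain ⟨q, hq⟩ : ∃ q, p = q + 1 := ⟨p - 1, by have := (Fact.out : p.Prime).pos; omega⟩
  have h := d_pow_succ δ hδ x q
  rw [← hq] at h
  rw [h]
  simp

/-- If `φ(b x^p) = 0` then all `θ_{i,b}(x)` vanish. -/
lemma theta_eq_zero [CharP A p] [CharP M p] [CharP (M ⊗[ZMod p] A) p]
    (hder : ∀ j : Fin s, ∃ δ : M →+ M, (∀ a b, δ (a * b) = δ a * b + a * δ b) ∧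
      ∀ i, δ (t i) = if i = j then 1 else 0)
    (b : A) (x : M ⊗[ZMod p] A)
    (h : phi Φ t (((1 : M) ⊗ₜ[ZMod p] b) * x ^ p) = 0) (j : Fin s) :
    theta Φ M j b x = 0 := by
  obtain ⟨δ, hδ, hδt⟩ := hder j
  rw [phi_pow] at h
  have h2 := congrArg δ h
  rw [map_sum, map_zero] at h2
  have h3 : ∀ i ∈ (Finset.univ : Finset (Fin s)), δ (t i * (theta Φ M i b x) ^ p) =
      if i = j then (theta Φ M i b x) ^ p else 0 := by
    intro i _
    rw [hδ, delta_pow_char δ hδ, hδt, mul_zero, add_zero]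
    split_ifs <;> simp
  rw [Finset.sum_congr rfl h3, Finset.sum_ite_eq' Finset.univ j] at h2
  simp only [Finset.mem_univ, if_true] at h2
  exact pow_eq_zero_iff (Fact.out : p.Prime).ne_zero |>.1 h2

/-- Socle lemma. -/
lemma soc_lemma {R : Type*} [CommRing R] (m : Ideal R) (hm : ∃ N : ℕ, m ^ N = ⊥) (w : R)
    (hw : w ≠ 0) : ∃ b, b * w ≠ 0 ∧ ∀ c ∈ m, c * (b * w) = 0 := by
  classical
  have hex : ∃ n : ℕ, ∀ b ∈ m ^ n, b * w = 0 := by
    obtain ⟨N, hN⟩ := hm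
    refine ⟨N, fun b hb => ?_⟩
    rw [hN, Ideal.mem_bot] at hb
    rw [hb, zero_mul]
  have h1 := Nat.find_spec hex
  have h2 : Nat.find hex ≠ 0 := by
    intro h0
    rw [h0, pow_zero] at h1
    have := h1 1 (by simp)
    rw [one_mul] at this
    exact hw this
  obtain ⟨n, hn⟩ := Nat.exists_eq_succ_of_ne_zero h2
  have h3 := Nat.find_min hex (m := n) (by omega)
  push Not at h3
  obtain ⟨b, hb, hbw⟩ := h3
  refine ⟨b, hbw, fun c hc => ?_⟩
  rw [← mul_assoc]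
  apply h1
  rw [hn, pow_succ']
  exact Ideal.mul_mem_mul hc hb

/-- `a^p ∈ I → a^p = 0`. -/
lemma pow_eq_zero_of_mem [CharP A p] [CharP M p] [CharP (M ⊗[ZMod p] A) p]
    (𝔪 : Ideal A) (hm : ∃ N : ℕ, 𝔪 ^ N = ⊥)
    (hΦ : ∀ a, (∀ c ∈ 𝔪, c * a = 0) → Φ a = 0 → a = 0)
    (hder : ∀ j : Fin s, ∃ δ : M →+ M, (∀ a b, δ (a * b) = δ a * b + a * δ b) ∧
      ∀ i, δ (t i) = if i = j then 1 else 0)
    (x : M ⊗[ZMod p] A) (h : ∀ y, phi Φ t (x ^ p * y) = 0) : x ^ p = 0 := by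
  rw [pow_eq_zero_iff_co]
  intro k
  by_contra hk
  obtain ⟨b, hb1, hb2⟩ := soc_lemma 𝔪 hm _ hk
  apply hb1
  apply hΦ _ hb2
  funext i
  have h1 : theta Φ M i b x = 0 := by
    apply theta_eq_zero Φ t hder
    rw [mul_comm]
    exact h _
  have h2 := repr_theta Φ i b x k
  rw [h1, map_zero, Finsupp.zero_apply] at h2
  exact h2.symm

/-- Λ. -/
noncomputable def Lam (M : Type) [Field M] [Algebra (ZMod p) M] [CharP A p] :
    M ⊗[ZMod p] A →ₗ[M] (Fin s → M) :=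
  LinearMap.pi (fun i => theta Φ M i 1)

lemma phi_pow_of_Lam [CharP A p] [CharP M p] [CharP (M ⊗[ZMod p] A) p]
    (x : M ⊗[ZMod p] A) (h : Lam Φ M x = 0) : phi Φ t (x ^ p) = 0 := by
  have h1 := phi_pow Φ t (1 : A) x
  rw [← Algebra.TensorProduct.one_def, one_mul] at h1
  rw [h1]
  apply Finset.sum_eq_zero
  intro i _
  have h2 : theta Φ M i 1 x = 0 := congrFun h i
  rw [h2, zero_pow (Fact.out : p.Prime).ne_zero, mul_zero]

end

end Pool.Agent.Helper88.Eggert
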