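import Mathlib
import Pool.Agent.Helper88.Eggert.Maps

set_option autoImplicit false

open TensorProduct Module

namespace Pool.Agent.Helper88.Eggert

section

variable {p : ℕ} [Fact p.Prime] {A : Type} [CommRing A] [Algebra (ZMod p) A]
variable {M : Type} [Field M] [Algebra (ZMod p) M]

/-- The extended maximal ideal. -/
noncomputable def mR (p : ℕ) [Fact p.Prime] {A : Type} [CommRing A] [Algebra (ZMod p) A]
    (M : Type) [Field M] [Algebra (ZMod p) M] (𝔪 : Ideal A) :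
    Ideal (M ⊗[ZMod p] A) :=
  𝔪.map (Algebra.TensorProduct.includeRight : A →ₐ[ZMod p] M ⊗[ZMod p] A)

lemma tmul_mem_mR (𝔪 : Ideal A) (m : M) {a : A} (ha : a ∈ 𝔪) :
    m ⊗ₜ[ZMod p] a ∈ mR p M 𝔪 := by
  have h : m ⊗ₜ[ZMod p] a = (m ⊗ₜ[ZMod p] (1 : A)) * ((1 : M) ⊗ₜ[ZMod p] a) := by
    rw [Algebra.TensorProduct.tmul_mul_tmul, mul_one, one_mul]
  rw [h]
  apply Ideal.mul_mem_left
  exact Ideal.mem_map_of_mem (Algebra.TensorProduct.includeRight :
    A →ₐ[ZMod p] M ⊗[ZMod p] A) ha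

lemma mR_nilp (𝔪 : Ideal A) (hm : ∃ N : ℕ, 𝔪 ^ N = ⊥) : ∃ N : ℕ, (mR p M 𝔪) ^ N = ⊥ := by
  obtain ⟨N, hN⟩ := hm
  refine ⟨N, ?_⟩
  rw [mR, ← Ideal.map_pow, hN, Ideal.map_bot]

lemma mR_loc (𝔪 : Ideal A) (hloc : ∀ r : A, ∃ c : ZMod p, r - algebraMap (ZMod p) A c ∈ 𝔪)
    (r : M ⊗[ZMod p] A) : ∃ c : M, r - algebraMap M (M ⊗[ZMod p] A) c ∈ mR p M 𝔪 := by
  induction r using TensorProduct.induction_on with
  | zero => exact ⟨0, by simp⟩
  | tmul m a =>
    obtain ⟨c, hc⟩ := hloc a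
    refine ⟨m * algebraMap (ZMod p) M c, ?_⟩
    have h : m ⊗ₜ[ZMod p] a - algebraMap M (M ⊗[ZMod p] A) (m * algebraMap (ZMod p) M c) =
        m ⊗ₜ[ZMod p] (a - algebraMap (ZMod p) A c) := by
      rw [TensorProduct.tmul_sub, Algebra.TensorProduct.algebraMap_apply, Algebra.algebraMap_self,
        RingHom.id_apply, Algebra.algebraMap_eq_smul_one, Algebra.algebraMap_eq_smul_one,
        mul_smul_comm, mul_one, TensorProduct.smul_tmul]
    rw [h]
    exact tmul_mem_mR 𝔪 m hc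
  | add x y hx hy =>
    obtain ⟨c, hc⟩ := hx
    obtain ⟨c', hc'⟩ := hy
    refine ⟨c + c', ?_⟩
    rw [map_add, add_sub_add_comm]
    exact Ideal.add_mem _ hc hc'

/-- The constants from `𝔪`. -/
def Cset (p : ℕ) [Fact p.Prime] {A : Type} [CommRing A] [Algebra (ZMod p) A]
    (M : Type) [Field M] [Algebra (ZMod p) M] (𝔪 : Ideal A) : Set (M ⊗[ZMod p] A) :=
  (fun c : A => (1 : M) ⊗ₜ[ZMod p] c) '' 𝔪

lemma span_Cset (𝔪 : Ideal A) :
    Submodule.span M (Cset p M 𝔪) = (mR p M 𝔪).restrictScalars M := by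
  apply le_antisymm
  · rw [Submodule.span_le]
    rintro _ ⟨c, hc, rfl⟩
    exact tmul_mem_mR 𝔪 1 hc
  · have hmul : ∀ (r : M ⊗[ZMod p] A) (x : M ⊗[ZMod p] A), x ∈ Submodule.span M (Cset p M 𝔪) →
        r * x ∈ Submodule.span M (Cset p M 𝔪) := by
      intro r x hx
      induction hx using Submodule.span_induction with
      | mem x hx =>
        obtain ⟨c, hc, rfl⟩ := hx
        induction r using TensorProduct.induction_on with
        | zero => rw [zero_mul]; exact Submodule.zero_mem _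
        | tmul m a =>
          have h : m ⊗ₜ[ZMod p] a * ((1 : M) ⊗ₜ[ZMod p] c) =
              m • ((1 : M) ⊗ₜ[ZMod p] (a * c)) := by
            rw [Algebra.TensorProduct.tmul_mul_tmul, TensorProduct.smul_tmul', smul_eq_mul]
          simp only
          rw [h]
          apply Submodule.smul_mem
          apply Submodule.subset_span
          exact ⟨a * c, 𝔪.mul_mem_left a hc, rfl⟩
        | add x y hx hy => rw [add_mul]; exact Submodule.add_mem _ hx hy
      | zero => rw [mul_zero]; exact Submodule.zero_mem _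
      | add x y _ _ hx hy => rw [mul_add]; exact Submodule.add_mem _ hx hy
      | smul a x _ hx => rw [mul_smul_comm]; exact Submodule.smul_mem _ _ hx
    intro x hx
    have hx' : x ∈ Ideal.span ((Algebra.TensorProduct.includeRight :
      A →ₐ[ZMod p] M ⊗[ZMod p] A) '' 𝔪) := hx
    clear hx
    induction hx' using Submodule.span_induction with
    | mem x hx =>
      obtain ⟨c, hc, rfl⟩ := hx
      exact Submodule.subset_span ⟨c, hc, rfl⟩
    | zero => exact Submodule.zero_mem _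
    | add x y _ _ ihx ihy => exact Submodule.add_mem _ ihx ihy
    | smul a x _ ihx => exact hmul a x ihx

/-- `Z` upstairs. -/
noncomputable def ZR (R : Type) [CommRing R] (p : ℕ) [Fact p.Prime] [CharP R p] : Ideal R :=
  RingHom.ker (frobenius R p)

lemma mem_ZR {R : Type} [CommRing R] {p : ℕ} [Fact p.Prime] [CharP R p] (a : R) :
    a ∈ ZR R p ↔ a ^ p = 0 := by
  rw [ZR, RingHom.mem_ker, frobenius_def]

/-- `Y`: elements multiplied into `Z` by the ideal `m`. -/
def YR {R : Type} [CommRing R] (m Z : Ideal R) : Ideal R where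
  carrier := {a | ∀ c ∈ m, c * a ∈ Z}
  add_mem' {a b} ha hb c hc := by rw [mul_add]; exact Z.add_mem (ha c hc) (hb c hc)
  zero_mem' c _ := by rw [mul_zero]; exact Z.zero_mem
  smul_mem' r a ha c hc := by
    rw [smul_eq_mul, mul_left_comm]
    exact Z.mul_mem_left r (ha c hc)

lemma mem_YR {R : Type} [CommRing R] (m Z : Ideal R) (a : R) :
    a ∈ YR m Z ↔ ∀ c ∈ m, c * a ∈ Z := Iff.rfl

lemma mem_ZR_co [CharP A p] [CharP M p] [CharP (M ⊗[ZMod p] A) p] (x : M ⊗[ZMod p] A) :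
    x ∈ ZR (M ⊗[ZMod p] A) p ↔ ∀ i, co x i ∈ ZR A p := by
  rw [mem_ZR, pow_eq_zero_iff_co]
  simp only [mem_ZR]

lemma mem_YR_co [CharP A p] [CharP M p] [CharP (M ⊗[ZMod p] A) p] (𝔪 : Ideal A)
    (x : M ⊗[ZMod p] A) :
    x ∈ YR (mR p M 𝔪) (ZR (M ⊗[ZMod p] A) p) ↔ ∀ i, co x i ∈ YR 𝔪 (ZR A p) := by
  constructor
  · intro h i c hc
    have h1 := h _ (tmul_mem_mR 𝔪 (1 : M) hc)
    rw [mem_ZR_co] at h1
    have h2 := h1 i
    rwa [co_mul] at h2
  · intro h c hc
    have hc' : c ∈ Ideal.span ((Algebra.TensorProduct.includeRight :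
      A →ₐ[ZMod p] M ⊗[ZMod p] A) '' 𝔪) := hc
    clear hc
    induction hc' using Submodule.span_induction with
    | mem y hy =>
      obtain ⟨c0, hc0, rfl⟩ := hy
      rw [mem_ZR_co]
      intro i
      change co (((1 : M) ⊗ₜ[ZMod p] c0) * x) i ∈ _
      rw [co_mul]
      exact h i c0 hc0
    | zero => rw [zero_mul]; exact Ideal.zero_mem _
    | add y z _ _ hy hz => rw [add_mul]; exact Ideal.add_mem _ hy hz
    | smul r y _ hy => rw [smul_eq_mul, mul_assoc]; exact Ideal.mul_mem_left _ _ hy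

/-- Every element of `Y_R` is an `M`-combination of elements `1 ⊗ y`, `y ∈ Y_A`. -/
lemma mem_YR_span [CharP A p] [CharP M p] [CharP (M ⊗[ZMod p] A) p] (𝔪 : Ideal A)
    (x : M ⊗[ZMod p] A) (hx : x ∈ YR (mR p M 𝔪) (ZR (M ⊗[ZMod p] A) p)) :
    x ∈ Submodule.span M (Set.range (fun y : YR 𝔪 (ZR A p) =>
      (1 : M) ⊗ₜ[ZMod p] (y : A))) := by
  rw [mem_YR_co] at hx
  obtain ⟨F, hF⟩ := sum_co x
  rw [hF]
  apply Submodule.sum_mem
  intro i _
  have h : (bas p M i) ⊗ₜ[ZMod p] (co x i) = (bas p M i) • ((1 : M) ⊗ₜ[ZMod p] (co x i)) := by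
    rw [TensorProduct.smul_tmul', smul_eq_mul, mul_one]
  rw [h]
  exact Submodule.smul_mem _ _ (Submodule.subset_span ⟨⟨co x i, hx i⟩, rfl⟩)

lemma tmul_mem_YR [CharP A p] [CharP M p] [CharP (M ⊗[ZMod p] A) p] (𝔪 : Ideal A)
    (y : YR 𝔪 (ZR A p)) (m : M) :
    m ⊗ₜ[ZMod p] (y : A) ∈ YR (mR p M 𝔪) (ZR (M ⊗[ZMod p] A) p) := by
  rw [mem_YR_co]
  intro i
  rw [co_tmul, ← algebraMap_smul A, smul_eq_mul]
  exact Ideal.mul_mem_left _ _ y.2

/-- The radical ideal of a functional. -/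
def IR {R : Type} [CommRing R] [Algebra M R] (φ : R →ₗ[M] M) : Ideal R where
  carrier := {a | ∀ b, φ (a * b) = 0}
  add_mem' {a b} ha hb c := by rw [add_mul, map_add, ha, hb, add_zero]
  zero_mem' c := by rw [zero_mul, map_zero]
  smul_mem' r a ha c := by
    rw [smul_eq_mul, mul_comm r, mul_assoc]
    exact ha _

omit [Fact p.Prime] [Algebra (ZMod p) M] in
lemma mem_IR {R : Type} [CommRing R] [Algebra M R] (φ : R →ₗ[M] M) (a : R) :
    a ∈ IR φ ↔ ∀ b, φ (a * b) = 0 := Iff.rfl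

lemma finrank_ZR_le [CharP A p] [CharP M p] [CharP (M ⊗[ZMod p] A) p] [Finite A] :
    finrank M ((ZR (M ⊗[ZMod p] A) p).restrictScalars M) ≤
      finrank (ZMod p) ((ZR A p).restrictScalars (ZMod p)) := by
  have hfin : Module.Finite (ZMod p) ((ZR A p).restrictScalars (ZMod p)) :=
    Module.Finite.of_finite
  rw [← Module.finrank_baseChange (R := M) (S := ZMod p)
    (M' := ((ZR A p).restrictScalars (ZMod p)))]
  have hle : (ZR (M ⊗[ZMod p] A) p).restrictScalars M ≤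
      LinearMap.range (((ZR A p).restrictScalars (ZMod p)).subtype.baseChange M) := by
    intro x hx
    rw [Submodule.restrictScalars_mem, mem_ZR_co] at hx
    obtain ⟨F, hF⟩ := sum_co x
    rw [hF]
    apply Submodule.sum_mem
    intro i _
    exact ⟨(bas p M i) ⊗ₜ ⟨co x i, hx i⟩, rfl⟩
  have : Module.Finite M (M ⊗[ZMod p] A) := inferInstance
  exact (Submodule.finrank_mono hle).trans (LinearMap.finrank_range_le _)

end

end Pool.Agent.Helper88.Eggert
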