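import Mathlib
import Pool.Agent.Helper88.Eggert.Local

set_option autoImplicit false

open TensorProduct Module

namespace Pool.Agent.Helper88.Eggert

section

variable {p : ℕ} [Fact p.Prime] {A : Type} [CommRing A] [Algebra (ZMod p) A]
variable {M : Type} [Field M] [Algebra (ZMod p) M]
variable {s : ℕ} (Φ : A →ₗ[ZMod p] (Fin s → ZMod p)) (t : Fin s → M)

lemma mul_eq_zero_of_soc (𝔪 : Ideal A) (b : A) (hb : ∀ c ∈ 𝔪, c * b = 0)
    (r : M ⊗[ZMod p] A) (hr : r ∈ mR p M 𝔪) : r * ((1 : M) ⊗ₜ[ZMod p] b) = 0 := by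
  have hr' : r ∈ Ideal.span ((Algebra.TensorProduct.includeRight :
      A →ₐ[ZMod p] M ⊗[ZMod p] A) '' 𝔪) := hr
  clear hr
  induction hr' using Submodule.span_induction with
  | mem y hy =>
    obtain ⟨c0, hc0, rfl⟩ := hy
    rw [Algebra.TensorProduct.includeRight_apply, Algebra.TensorProduct.tmul_mul_tmul, hb c0 hc0,
      TensorProduct.tmul_zero]
  | zero => rw [zero_mul]
  | add y z _ _ hy hz => rw [add_mul, hy, hz, add_zero]
  | smul r y _ hy => rw [smul_eq_mul, mul_assoc, hy, mul_zero]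

lemma finrank_IR_ge [Finite A] (𝔪 : Ideal A)
    (hloc : ∀ r : A, ∃ c : ZMod p, r - algebraMap (ZMod p) A c ∈ 𝔪)
    (b : Fin s → A) (hb : ∀ i, ∀ c ∈ 𝔪, c * b i = 0) (hΦb : ∀ i, Φ (b i) = Pi.single i 1) :
    s ≤ finrank M ((IR (phi Φ t)).restrictScalars M) + 1 := by
  classical
  set J : (Fin s → M) →ₗ[M] M ⊗[ZMod p] A :=
    Fintype.linearCombination M (fun i => (1 : M) ⊗ₜ[ZMod p] b i) with hJ
  have hJapp : ∀ c, J c = ∑ i, c i • ((1 : M) ⊗ₜ[ZMod p] b i) := fun c => by
    rw [hJ, Fintype.linearCombination_apply]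
  have hcoord : ∀ c i, coordM Φ M i (J c) = c i := by
    intro c i
    rw [hJapp, map_sum, Finset.sum_eq_single i]
    · rw [map_smul, coordM_tmul, hΦb]
      simp
    · intro j _ hji
      rw [map_smul, coordM_tmul, hΦb]
      rw [Pi.single_eq_of_ne (Ne.symm hji)]
      simp
    · intro h; exact absurd (Finset.mem_univ i) h
  have hJinj : Function.Injective J := by
    intro c c' h
    funext i
    rw [← hcoord c i, h, hcoord]
  set ψ : (Fin s → M) →ₗ[M] M := (phi Φ t) ∘ₗ J with hψ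
  have hmem : ∀ c ∈ LinearMap.ker ψ, J c ∈ (IR (phi Φ t)).restrictScalars M := by
    intro c hc
    have hc' : phi Φ t (J c) = 0 := hc
    rw [Submodule.restrictScalars_mem, mem_IR]
    intro r
    obtain ⟨e, he⟩ := mR_loc 𝔪 hloc r (M := M)
    have h0 : J c * (r - algebraMap M (M ⊗[ZMod p] A) e) = 0 := by
      rw [hJapp, Finset.sum_mul]
      apply Finset.sum_eq_zero
      intro i _
      rw [smul_mul_assoc, mul_comm, mul_eq_zero_of_soc 𝔪 (b i) (hb i) _ he, smul_zero]
    have h1 : J c * r = e • J c := by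
      rw [mul_sub, sub_eq_zero] at h0
      rw [h0, Algebra.smul_def, mul_comm]
    rw [h1, map_smul, hc', smul_zero]
  have h1 := LinearMap.finrank_range_add_finrank_ker ψ
  rw [Module.finrank_pi, Fintype.card_fin] at h1
  have h2 : finrank M (LinearMap.range ψ) ≤ 1 := by
    have := Submodule.finrank_le (LinearMap.range ψ)
    rwa [Module.finrank_self] at this
  have h3 : finrank M (LinearMap.ker ψ) ≤ finrank M ((IR (phi Φ t)).restrictScalars M) := by
    let g : LinearMap.ker ψ →ₗ[M] ((IR (phi Φ t)).restrictScalars M) :=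
      { toFun := fun c => ⟨J c, hmem c c.2⟩
        map_add' := fun x y => by
          apply Subtype.ext
          simp
        map_smul' := fun a x => by
          apply Subtype.ext
          simp }
    have hg : Function.Injective g := by
      intro x y h
      apply Subtype.ext
      apply hJinj
      exact congrArg Subtype.val h
    exact LinearMap.finrank_le_finrank_of_injective hg
  omega

/-- The extension of a derivation of `M` to `M ⊗ A`. -/
noncomputable def dext (p : ℕ) [Fact p.Prime] (A : Type) [CommRing A] [Algebra (ZMod p) A]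
    {M : Type} [Field M] [Algebra (ZMod p) M] (δ : M →+ M) :
    M ⊗[ZMod p] A →+ M ⊗[ZMod p] A :=
  ((AddMonoidHom.toZModLinearMap p δ).rTensor A).toAddMonoidHom

lemma dext_tmul (δ : M →+ M) (m : M) (a : A) :
    dext p A δ (m ⊗ₜ a) = δ m ⊗ₜ a := rfl

lemma dext_leibniz (δ : M →+ M) (hδ : ∀ a b, δ (a * b) = δ a * b + a * δ b)
    (x y : M ⊗[ZMod p] A) :
    dext p A δ (x * y) = dext p A δ x * y + x * dext p A δ y := by
  induction x using TensorProduct.induction_on with
  | zero => simp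
  | tmul m a =>
    induction y using TensorProduct.induction_on with
    | zero => simp
    | tmul m' a' =>
      rw [Algebra.TensorProduct.tmul_mul_tmul, dext_tmul, dext_tmul, dext_tmul, hδ,
        Algebra.TensorProduct.tmul_mul_tmul, Algebra.TensorProduct.tmul_mul_tmul,
        TensorProduct.add_tmul]
    | add y z hy hz =>
      rw [mul_add, map_add, hy, hz, map_add, mul_add, mul_add]
      abel
  | add x z hx hz =>
    rw [add_mul, map_add, hx, hz, map_add, add_mul, add_mul]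
    abel

lemma coordM_dext (δ : M →+ M) (hδ : ∀ a b, δ (a * b) = δ a * b + a * δ b) (i : Fin s)
    (x : M ⊗[ZMod p] A) :
    coordM Φ M i (dext p A δ x) = δ (coordM Φ M i x) := by
  induction x using TensorProduct.induction_on with
  | zero => simp
  | tmul m a =>
    rw [dext_tmul, coordM_tmul, coordM_tmul, mul_comm m, mul_comm (δ m), ← Algebra.smul_def,
      ← Algebra.smul_def]
    exact (map_smul (AddMonoidHom.toZModLinearMap p δ) (Φ a i) m).symm
  | add x y hx hy => rw [map_add, map_add, hx, hy, map_add, map_add]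

lemma phi_dext (δ : M →+ M) (hδ : ∀ a b, δ (a * b) = δ a * b + a * δ b)
    (hδt : ∀ i, δ (t i) = 0) (x : M ⊗[ZMod p] A) :
    phi Φ t (dext p A δ x) = δ (phi Φ t x) := by
  rw [phi_apply, phi_apply, map_sum]
  refine Finset.sum_congr rfl fun i _ => ?_
  rw [hδ, hδt, zero_mul, zero_add, coordM_dext Φ δ hδ]

lemma dext_mem_IR (δ : M →+ M) (hδ : ∀ a b, δ (a * b) = δ a * b + a * δ b)
    (hδt : ∀ i, δ (t i) = 0) (x : M ⊗[ZMod p] A) (hx : x ∈ IR (phi Φ t)) :
    dext p A δ x ∈ IR (phi Φ t) := by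
  rw [mem_IR] at hx ⊢
  intro b
  have h := dext_leibniz δ hδ x b
  have h1 : dext p A δ x * b = dext p A δ (x * b) - x * dext p A δ b := by
    rw [h]; ring
  rw [h1, map_sub, phi_dext Φ t δ hδ hδt, hx, map_zero, hx, sub_zero]

/-- The main assembly: all hypotheses of the counting theorem. -/
theorem hKL_aux [Finite A] [CharP A p] [CharP M p] [CharP (M ⊗[ZMod p] A) p]
    (𝔪 : Ideal A) (v : YR 𝔪 (ZR A p) → M)
    (hder : ∀ (f : Fin s → M) (g : YR 𝔪 (ZR A p) → M), ∃ δ : M →+ M,
      (∀ a b, δ (a * b) = δ a * b + a * δ b) ∧ (∀ i, δ (t i) = f i) ∧ ∀ y, δ (v y) = g y)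
    (u : M ⊗[ZMod p] A) [Fintype (YR 𝔪 (ZR A p))]
    (hu : u = ∑ y : YR 𝔪 (ZR A p), v y ⊗ₜ[ZMod p] (y : A))
    (c n : M ⊗[ZMod p] A) (hc : c = 1 ∨ c ∈ Cset p M 𝔪)
    (hn : n ∈ YR (mR p M 𝔪) (ZR (M ⊗[ZMod p] A) p))
    (h : ∀ y ∈ YR (mR p M 𝔪) (ZR (M ⊗[ZMod p] A) p),
      c * u ^ (p - 2) * n * y ∈ IR (phi Φ t)) :
    c * n ^ p ∈ IR (phi Φ t) := by
  classical
  have hn' := mem_YR_span 𝔪 n hn
  rw [Submodule.mem_span_range_iff_exists_fun] at hn'
  obtain ⟨g, hg⟩ := hn'
  obtain ⟨δ, hδ, hδt, hδv⟩ := hder (fun _ => 0) g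
  have hdu : dext p A δ u = n := by
    rw [hu, map_sum, ← hg]
    refine Finset.sum_congr rfl fun y _ => ?_
    rw [dext_tmul, hδv, TensorProduct.smul_tmul', smul_eq_mul, mul_one]
  have hδ1 : δ 1 = 0 := d_one δ hδ
  have hdc : dext p A δ c = 0 := by
    rcases hc with rfl | ⟨c0, _, rfl⟩
    · rw [Algebra.TensorProduct.one_def, dext_tmul, hδ1, TensorProduct.zero_tmul]
    · simp only
      rw [dext_tmul, hδ1, TensorProduct.zero_tmul]
  have hu' : u ∈ (YR (mR p M 𝔪) (ZR (M ⊗[ZMod p] A) p)).restrictScalars M := by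
    rw [Submodule.restrictScalars_mem, hu]
    exact Submodule.sum_mem _ fun y _ => tmul_mem_YR 𝔪 y (v y)
  have hdY : ∀ y ∈ (YR (mR p M 𝔪) (ZR (M ⊗[ZMod p] A) p)).restrictScalars M,
      dext p A δ y ∈ (YR (mR p M 𝔪) (ZR (M ⊗[ZMod p] A) p)).restrictScalars M := by
    intro y hy
    have hy' := mem_YR_span 𝔪 y hy
    rw [Submodule.mem_span_range_iff_exists_fun] at hy'
    obtain ⟨g', hg'⟩ := hy'
    rw [← hg', map_sum]
    apply Submodule.sum_mem
    intro z _
    rw [TensorProduct.smul_tmul', smul_eq_mul, mul_one, dext_tmul]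
    exact tmul_mem_YR 𝔪 z _
  have key := key_lemma (M := M) p (IR (phi Φ t))
    ((YR (mR p M 𝔪) (ZR (M ⊗[ZMod p] A) p)).restrictScalars M) (dext p A δ)
    (dext_leibniz δ hδ) (dext_mem_IR Φ t δ hδ hδt) hdY c u hdc hu'
    (by
      intro y hy
      rw [hdu]
      exact h y hy)
  rw [hdu] at key
  exact key

end

end Pool.Agent.Helper88.Eggert
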