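import Mathlib

set_option autoImplicit false

open Module

namespace Pool.Agent.Helper88.Eggert

/-- A field with prescribed derivations, abstract version. -/
theorem exists_derivation_aux (σ K : Type) [Field K] (L : Type) [Field L]
    [Algebra (MvPolynomial σ K) L] [Algebra K L] [IsScalarTower K (MvPolynomial σ K) L]
    [IsLocalization (nonZeroDivisors (MvPolynomial σ K)) L]
    (f : σ → L) :
    ∃ δ : L →+ L,
      (∀ a b, δ (a * b) = δ a * b + a * δ b) ∧
      ∀ i, δ (algebraMap (MvPolynomial σ K) L (MvPolynomial.X i)) = f i := by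
  classical
  let g0 : MvPolynomial σ K →+* TrivSqZeroExt L L :=
    MvPolynomial.eval₂Hom ((TrivSqZeroExt.inlHom L L).comp (algebraMap K L))
      (fun i => TrivSqZeroExt.inl (algebraMap (MvPolynomial σ K) L (MvPolynomial.X i)) +
        TrivSqZeroExt.inr (f i))
  have hfst : ∀ q : MvPolynomial σ K, (g0 q).fst = algebraMap (MvPolynomial σ K) L q := by
    intro q
    have h : ((TrivSqZeroExt.fstHom L L L : TrivSqZeroExt L L →ₐ[L] L) :
        TrivSqZeroExt L L →+* L).comp g0 = algebraMap (MvPolynomial σ K) L := by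
      apply MvPolynomial.ringHom_ext
      · intro r
        simp only [g0, RingHom.comp_apply, MvPolynomial.coe_eval₂Hom, MvPolynomial.eval₂_C]
        change (TrivSqZeroExt.inl (algebraMap K L r) : TrivSqZeroExt L L).fst = _
        rw [TrivSqZeroExt.fst_inl, ← MvPolynomial.algebraMap_eq,
          ← IsScalarTower.algebraMap_apply]
      · intro i
        simp only [g0, RingHom.comp_apply, MvPolynomial.coe_eval₂Hom, MvPolynomial.eval₂_X]
        change (TrivSqZeroExt.inl (algebraMap (MvPolynomial σ K) L (MvPolynomial.X i)) +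
          TrivSqZeroExt.inr (f i) : TrivSqZeroExt L L).fst = _
        rw [TrivSqZeroExt.fst_add, TrivSqZeroExt.fst_inl, TrivSqZeroExt.fst_inr, add_zero]
    exact congrArg (fun φ : MvPolynomial σ K →+* L => φ q) h
  have hunit : ∀ q : nonZeroDivisors (MvPolynomial σ K), IsUnit (g0 q) := by
    intro q
    rw [TrivSqZeroExt.isUnit_iff_isUnit_fst, hfst]
    exact IsLocalization.map_units L q
  let g : L →+* TrivSqZeroExt L L :=
    IsLocalization.lift (M := nonZeroDivisors (MvPolynomial σ K)) hunit
  have hg : ∀ q : MvPolynomial σ K, g (algebraMap (MvPolynomial σ K) L q) = g0 q :=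
    fun q => IsLocalization.lift_eq hunit q
  have hgfst : ∀ a : L, (g a).fst = a := by
    intro a
    have h : ((TrivSqZeroExt.fstHom L L L : TrivSqZeroExt L L →ₐ[L] L) :
        TrivSqZeroExt L L →+* L).comp g = RingHom.id L := by
      apply IsLocalization.ringHom_ext (nonZeroDivisors (MvPolynomial σ K))
      refine RingHom.ext fun q => ?_
      simp only [RingHom.comp_apply]
      rw [hg]
      exact hfst q
    exact congrArg (fun φ : L →+* L => φ a) h
  refine ⟨{ toFun := fun a => (g a).snd
            map_zero' := by rw [map_zero, TrivSqZeroExt.snd_zero]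
            map_add' := fun a b => by rw [map_add, TrivSqZeroExt.snd_add] }, ?_, ?_⟩
  · intro a b
    change (g (a * b)).snd = (g a).snd * b + a * (g b).snd
    rw [map_mul, TrivSqZeroExt.snd_mul, hgfst, hgfst, op_smul_eq_mul, smul_eq_mul]
    ring
  · intro i
    change (g (algebraMap (MvPolynomial σ K) L (MvPolynomial.X i))).snd = f i
    rw [hg]
    simp only [g0, MvPolynomial.coe_eval₂Hom, MvPolynomial.eval₂_X]
    rw [TrivSqZeroExt.snd_add, TrivSqZeroExt.snd_inl, TrivSqZeroExt.snd_inr, zero_add]

theorem exists_derivation (σ : Type) (p : ℕ) [Fact p.Prime]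
    (f : σ → FractionRing (MvPolynomial σ (ZMod p))) :
    ∃ δ : FractionRing (MvPolynomial σ (ZMod p)) →+ FractionRing (MvPolynomial σ (ZMod p)),
      (∀ a b, δ (a * b) = δ a * b + a * δ b) ∧
      ∀ i, δ (algebraMap (MvPolynomial σ (ZMod p)) _ (MvPolynomial.X i)) = f i :=
  exists_derivation_aux σ (ZMod p) (FractionRing (MvPolynomial σ (ZMod p))) f

end Pool.Agent.Helper88.Eggert
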