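import Mathlib
import Pool.Agent.Helper88.Eggert.Assemble

set_option autoImplicit false

open TensorProduct Module

namespace Pool.Agent.Helper88.Eggert

/-- Statement of the counting theorem. -/
def CountStatement : Prop :=
  ∀ {M R : Type} [Field M] [CommRing R] [Algebra M R] [Module.Finite M R]
    (p : ℕ) [Fact p.Prime] [CharP M p]
    (m : Ideal R) (_ : ∃ N : ℕ, m ^ N = ⊥)
    (_ : ∀ r : R, ∃ c : M, r - algebraMap M R c ∈ m)
    (φ : R →ₗ[M] M) (I Z Y : Ideal R)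
    (_ : ∀ a, a ∈ I ↔ ∀ b, φ (a * b) = 0)
    (_ : ∀ a, a ∈ Z ↔ a ^ p = 0)
    (_ : ∀ a, a ∈ Y ↔ ∀ c ∈ m, c * a ∈ Z)
    (_ : ∀ a : R, a ^ p ∈ I → a ^ p = 0)
    (s : ℕ) (_ : s ≤ finrank M (I.restrictScalars M) + 1)
    (Λ : R →ₗ[M] (Fin s → M)) (_ : ∀ a, Λ a = 0 → φ (a ^ p) = 0)
    (C : Set R) (_ : Submodule.span M C = m.restrictScalars M)
    (u : R) (_ : u ∈ Y)
    (_ : ∀ c n : R, (c = 1 ∨ c ∈ C) → n ∈ Y →
      (∀ y ∈ Y, c * u ^ (p - 2) * n * y ∈ I) → c * n ^ p ∈ I),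
    p * finrank M R + 1 ≤ p * finrank M (Z.restrictScalars M) + finrank M R + p

/-- Statement about derivations. -/
def DerStatement : Prop :=
  ∀ (σ : Type) (p : ℕ) [Fact p.Prime]
    (f : σ → FractionRing (MvPolynomial σ (ZMod p))),
    ∃ δ : FractionRing (MvPolynomial σ (ZMod p)) →+ FractionRing (MvPolynomial σ (ZMod p)),
      (∀ a b, δ (a * b) = δ a * b + a * δ b) ∧
      ∀ i, δ (algebraMap (MvPolynomial σ (ZMod p)) _ (MvPolynomial.X i)) = f i

section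

variable {p : ℕ} [Fact p.Prime] {A : Type} [CommRing A] [Algebra (ZMod p) A]

theorem eggert_field (hcount : CountStatement) [Finite A] [CharP A p]
    {M : Type} [Field M] [Algebra (ZMod p) M] [CharP M p] [CharP (M ⊗[ZMod p] A) p]
    (𝔪 : Ideal A) (hm : ∃ N : ℕ, 𝔪 ^ N = ⊥)
    (hloc : ∀ r : A, ∃ c : ZMod p, r - algebraMap (ZMod p) A c ∈ 𝔪)
    {s : ℕ} (Φ : A →ₗ[ZMod p] (Fin s → ZMod p)) (t : Fin s → M)
    (hΦ : ∀ a, (∀ c ∈ 𝔪, c * a = 0) → Φ a = 0 → a = 0)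
    (b : Fin s → A) (hb : ∀ i, ∀ c ∈ 𝔪, c * b i = 0) (hΦb : ∀ i, Φ (b i) = Pi.single i 1)
    (v : YR 𝔪 (ZR A p) → M)
    (hder : ∀ (f : Fin s → M) (g : YR 𝔪 (ZR A p) → M), ∃ δ : M →+ M,
      (∀ a b, δ (a * b) = δ a * b + a * δ b) ∧ (∀ i, δ (t i) = f i) ∧ ∀ y, δ (v y) = g y) :
    p * finrank (ZMod p) A + 1 ≤
      p * finrank (ZMod p) ((ZR A p).restrictScalars (ZMod p)) + finrank (ZMod p) A + p := by
  classical
  have hfin : Fintype (YR 𝔪 (ZR A p)) := Fintype.ofFinite _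
  set u : M ⊗[ZMod p] A := ∑ y : YR 𝔪 (ZR A p), v y ⊗ₜ[ZMod p] (y : A) with hu
  have hu' : u ∈ YR (mR p M 𝔪) (ZR (M ⊗[ZMod p] A) p) := by
    rw [hu]
    exact Submodule.sum_mem _ fun y _ => tmul_mem_YR 𝔪 y (v y)
  have hder' : ∀ j : Fin s, ∃ δ : M →+ M, (∀ a b, δ (a * b) = δ a * b + a * δ b) ∧
      ∀ i, δ (t i) = if i = j then 1 else 0 := by
    intro j
    obtain ⟨δ, h1, h2, _⟩ := hder (fun i => if i = j then 1 else 0) (fun _ => 0)
    exact ⟨δ, h1, h2⟩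
  have h1 : ∀ x : M ⊗[ZMod p] A, x ^ p ∈ IR (phi Φ t) → x ^ p = 0 := fun x hx =>
    pow_eq_zero_of_mem Φ t 𝔪 hm hΦ hder' x hx
  have key := hcount (M := M) (R := M ⊗[ZMod p] A) p (mR p M 𝔪) (mR_nilp 𝔪 hm) (mR_loc 𝔪 hloc)
    (phi Φ t) (IR (phi Φ t)) (ZR (M ⊗[ZMod p] A) p) (YR (mR p M 𝔪) (ZR (M ⊗[ZMod p] A) p))
    (mem_IR _) mem_ZR (mem_YR _ _) h1 s (finrank_IR_ge Φ t 𝔪 hloc b hb hΦb)
    (Lam Φ M) (phi_pow_of_Lam Φ t) (Cset p M 𝔪) (span_Cset 𝔪) u hu'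
    (fun c n hc hn h => hKL_aux Φ t 𝔪 v hder u hu c n hc hn h)
  have hZ := finrank_ZR_le (p := p) (A := A) (M := M)
  rw [Module.finrank_baseChange] at key
  have := Nat.mul_le_mul_left p hZ
  omega

end

theorem eggert_of (hcount : CountStatement) (hD : DerStatement)
    {p : ℕ} [Fact p.Prime] {A : Type} [CommRing A] [Algebra (ZMod p) A] [Finite A]
    (𝔪 : Ideal A) (hm : ∃ N : ℕ, 𝔪 ^ N = ⊥)
    (hloc : ∀ r : A, ∃ c : ZMod p, r - algebraMap (ZMod p) A c ∈ 𝔪)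
    (Z : Ideal A) (hZ : ∀ a, a ∈ Z ↔ a ^ p = 0) :
    p * finrank (ZMod p) A + 1 ≤
      p * finrank (ZMod p) (Z.restrictScalars (ZMod p)) + finrank (ZMod p) A + p := by
  classical
  have hp : p.Prime := Fact.out
  rcases subsingleton_or_nontrivial A with hA | hA
  · have h0 : finrank (ZMod p) A = 0 := Module.finrank_zero_of_subsingleton
    rw [h0]
    have := hp.pos
    omega
  have : CharP A p := charP_of_injective_algebraMap (algebraMap (ZMod p) A).injective p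
  have hZeq : Z = ZR A p := by
    ext a
    rw [hZ, mem_ZR]
  rw [hZeq]
  -- the socle
  let V : Submodule (ZMod p) A :=
    { carrier := {a | ∀ c ∈ 𝔪, c * a = 0}
      add_mem' := fun {a b} ha hb c hc => by rw [mul_add, ha c hc, hb c hc, add_zero]
      zero_mem' := fun c _ => mul_zero c
      smul_mem' := fun r a ha c hc => by rw [mul_smul_comm, ha c hc, smul_zero] }
  have hVfin : Module.Finite (ZMod p) V := Module.Finite.of_finite
  let bV : Basis (Fin (finrank (ZMod p) V)) (ZMod p) V := Module.finBasis (ZMod p) V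
  obtain ⟨Φ, hΦ⟩ := LinearMap.exists_extend (p := V) bV.equivFun.toLinearMap
  have hΦ' : ∀ v : V, Φ (v : A) = bV.equivFun v := fun v => by
    have h := LinearMap.congr_fun hΦ v
    exact h
  let Y := YR 𝔪 (ZR A p)
  let σ := Fin (finrank (ZMod p) V) ⊕ Y
  let M := FractionRing (MvPolynomial σ (ZMod p))
  have : CharP M p :=
    charP_of_injective_algebraMap (algebraMap (ZMod p) M).injective p
  have hRnt : Nontrivial (M ⊗[ZMod p] A) := by
    apply Module.nontrivial_of_finrank_pos (R := M)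
    rw [Module.finrank_baseChange]
    exact Module.finrank_pos
  have : CharP (M ⊗[ZMod p] A) p :=
    charP_of_injective_algebraMap (algebraMap (ZMod p) (M ⊗[ZMod p] A)).injective p
  refine eggert_field hcount (M := M) 𝔪 hm hloc Φ
    (fun i => algebraMap (MvPolynomial σ (ZMod p)) M (MvPolynomial.X (Sum.inl i))) ?_
    (fun i => (bV i : A)) ?_ ?_
    (fun y => algebraMap (MvPolynomial σ (ZMod p)) M (MvPolynomial.X (Sum.inr y))) ?_
  · intro a ha hΦa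
    have h1 := hΦ' ⟨a, ha⟩
    rw [hΦa] at h1
    have h2 : (⟨a, ha⟩ : V) = 0 := by
      apply bV.equivFun.injective
      rw [map_zero, ← h1]
    exact congrArg Subtype.val h2
  · intro i c hc
    exact (bV i).2 c hc
  · intro i
    rw [hΦ']
    funext j
    rw [Basis.equivFun_self, Pi.single_apply]
    by_cases h : i = j
    · rw [if_pos h, if_pos h.symm]
    · rw [if_neg h, if_neg (Ne.symm h)]
  · intro f g
    obtain ⟨δ, h1, h2⟩ := hD σ p (Sum.elim f g)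
    exact ⟨δ, h1, fun i => h2 (Sum.inl i), fun y => h2 (Sum.inr y)⟩

end Pool.Agent.Helper88.Eggert
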